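import Pool.Agent.DPF.Stmts

/-!
MP_d97b4e_co, squad DPF, row STE: one step down.
-/

namespace Pool.Agent.DPF.H88

open Finset Pool.Agent.DPS

lemma mem_ini {n l : ℕ} {x : Fin n} : x ∈ ini n l ↔ x.val < l := by
  simp [ini]

lemma ini_mono {n l : ℕ} : ini n l ⊆ ini n (l + 1) := by
  intro x hx
  rw [mem_ini] at hx ⊢
  omega

lemma card_ini {n l : ℕ} (hl : l ≤ n) : (ini n l).card = l := by
  unfold ini
  have h : (univ.filter fun x : Fin n => x.val < l) =
      (Finset.univ : Finset (Fin l)).map (Fin.castLEEmb hl) := by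
    ext x
    simp only [mem_filter, mem_univ, true_and, mem_map]
    constructor
    · intro hx
      exact ⟨⟨x.val, hx⟩, by ext; simp⟩
    · rintro ⟨y, hy⟩
      rw [← hy]
      simp
  rw [h, card_map, card_univ, Fintype.card_fin]

/-- the trace on one more point -/
lemma trace_succ {n : ℕ} (c : Fin n) (K : Finset (Fin n)) :
    K ∩ ini n (c.val + 1) = if c ∈ K then insert c (K ∩ ini n c.val) else K ∩ ini n c.val := by
  ext x
  by_cases hc : c ∈ K
  · rw [if_pos hc]
    simp only [mem_inter, mem_insert, mem_ini]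
    constructor
    · rintro ⟨hx, hl⟩
      by_cases hxc : x = c
      · exact Or.inl hxc
      · right
        refine ⟨hx, ?_⟩
        have : x.val ≠ c.val := fun h => hxc (Fin.ext h)
        omega
    · rintro (hx | ⟨hx, hl⟩)
      · subst hx
        exact ⟨hc, by omega⟩
      · exact ⟨hx, by omega⟩
  · rw [if_neg hc]
    simp only [mem_inter, mem_ini]
    constructor
    · rintro ⟨hx, hl⟩
      refine ⟨hx, ?_⟩
      have : x.val ≠ c.val := fun h => hc (by rw [← Fin.ext h]; exact hx)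
      omega
    · rintro ⟨hx, hl⟩
      exact ⟨hx, by omega⟩

lemma trace_cases {n t : ℕ} (c : Fin n) (𝒯 : Finset (Finset (Fin n)))
    (hG : Gd n (c.val + 1) t 𝒯) (K : Finset (Fin n)) (hK : K ∩ ini n (c.val + 1) ∈ 𝒯) :
    K ∩ ini n c.val ∈ AA c 𝒯 ∨ K ∩ ini n c.val ∈ XX c 𝒯 := by
  have hsub : K ∩ ini n c.val ⊆ ini n c.val := inter_subset_right
  by_cases hE : K ∩ ini n c.val ∈ 𝒯
  · left
    unfold AA
    rw [mem_filter]
    exact ⟨hE, hsub⟩
  · right
    unfold XX
    rw [mem_filter, mem_powerset]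
    refine ⟨hsub, ?_, hE⟩
    rw [trace_succ] at hK
    by_cases hc : c ∈ K
    · rw [if_pos hc] at hK
      exact hK
    · rw [if_neg hc] at hK
      exact absurd hK hE

/-- an expectation is at most the maximum -/
lemma ex_le {n k t L ν : ℕ} (hL : 1 ≤ L) (hLn : L ≤ n) (ρ : Rl k t L ν) (f : Fin ρ.N → Fin n → ℝ)
    (v : ℝ) (hv : v ≤ ex ρ f) : ∃ i, ∃ j ∈ ini n L, v ≤ f i j := by
  by_contra hcon
  push Not at hcon
  have hLR : (0 : ℝ) < (L : ℝ) := by exact_mod_cast hL
  have havg : ∀ i, (∑ j ∈ ini n L, f i j) / L < v := by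
    intro i
    rw [div_lt_iff₀ hLR]
    have hne : (ini n L).Nonempty := by
      rw [← card_pos, card_ini hLn]
      omega
    have h1 : ∑ j ∈ ini n L, f i j < ∑ j ∈ ini n L, v :=
      sum_lt_sum_of_nonempty hne (fun j hj => hcon i j hj)
    rw [sum_const, card_ini hLn, nsmul_eq_mul] at h1
    linarith
  have hsum : ∑ i, ρ.w i * (v - (∑ j ∈ ini n L, f i j) / L) ≤ 0 := by
    have h2 : ∑ i, ρ.w i * (v - (∑ j ∈ ini n L, f i j) / L) = v - ex ρ f := by
      unfold ex
      simp only [mul_sub]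
      rw [sum_sub_distrib, ← sum_mul, ρ.sum_one, one_mul]
    rw [h2]
    linarith
  have hnn : ∀ i ∈ (univ : Finset (Fin ρ.N)), 0 ≤ ρ.w i * (v - (∑ j ∈ ini n L, f i j) / L) := by
    intro i _
    exact mul_nonneg (ρ.nonneg i) (by linarith [havg i])
  have hz : ∑ i, ρ.w i * (v - (∑ j ∈ ini n L, f i j) / L) = 0 :=
    le_antisymm hsum (sum_nonneg hnn)
  rw [sum_eq_zero_iff_of_nonneg hnn] at hz
  have hw : ∀ i, ρ.w i = 0 := by
    intro i
    have h3 := hz i (mem_univ i)
    rcases mul_eq_zero.mp h3 with h4 | h4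
    · exact h4
    · linarith [havg i]
  have h5 := ρ.sum_one
  simp [hw] at h5

/-- **STE.** -/
theorem ste (hCLO : CLOStmt) (hCFL : CFLStmt) (hNEW : NEWStmt) (hINC : INCStmt)
    (hSTP : STPStmt) : STEStmt := by
  intro n k t r θ c 𝒯0 hRUL ht htc htk hn hG0
  obtain ⟨𝒯, hG, hCl, hle⟩ := hCLO n k t r θ c 𝒯0 hG0
  obtain ⟨c1, c2, c3, c4, c5⟩ := hCFL n t c 𝒯 ht htc hG hCl
  have hcn : c.val ≤ n := le_of_lt c.isLt
  by_cases hfull : ini n c.val ∈ 𝒯
  · by_cases hLt : c.val = t
    · -- case (b)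
      have hXX : ∀ E, E ∉ XX c 𝒯 := by
        intro E hE
        have h1 := c1 E hE
        have h2 := c2 hfull E hE
        omega
      refine ⟨AA c 𝒯, ⟨?_, ?_, ?_⟩, ?_⟩
      · intro E hE
        unfold AA at hE
        exact (mem_filter.mp hE).2
      · intro E hE E' hEE' hE'
        unfold AA at hE ⊢
        rw [mem_filter] at hE ⊢
        exact ⟨hG.up E hE.1 E' hEE' (hE'.trans ini_mono), hE'⟩
      · intro E hE E' hE'
        unfold AA at hE hE'
        rw [mem_filter] at hE hE'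
        exact hG.int E hE.1 E' hE'.1
      · refine hle.trans ((hINC n r θ).1 _ _ ?_)
        intro K hK
        unfold fam at hK ⊢
        rw [mem_filter] at hK ⊢
        refine ⟨hK.1, ?_⟩
        rcases trace_cases c 𝒯 hG K hK.2 with h1 | h1
        · exact h1
        · exact absurd h1 (hXX _)
    · -- case (c)
      have hL1 : t + 1 ≤ c.val := by omega
      obtain ⟨ρ, hρ⟩ := hRUL n k c.val hL1 (by have := c.isLt; omega) htk hn
      have hstp := hSTP n k t r θ c 𝒯 ht hL1 hG hCl hfull ρ hρ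
      obtain ⟨i, j, hj, hij⟩ := ex_le (by omega) hcn ρ _ _ hstp
      refine ⟨upc c.val (AA c 𝒯 ∪ YY (ρ.st i) j (XX c 𝒯)),
        hNEW n k t (n - c.val) c 𝒯 ht htc hG hCl ρ i j hj, ?_⟩
      exact hle.trans (hij.trans ((hINC n r θ).1 _ _ ((hINC n r θ).2 k c.val _)))
  · -- case (a)
    have hAA : ∀ E, E ∉ AA c 𝒯 := by
      intro E hE
      unfold AA at hE
      rw [mem_filter] at hE
      exact hfull (hG.up E hE.1 _ hE.2 ini_mono)
    have hXX : ∀ E ∈ XX c 𝒯, E = ini n c.val := by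
      intro E hE
      by_contra hne
      have hsub : E ⊆ ini n c.val := by
        unfold XX at hE
        exact mem_powerset.mp (mem_filter.mp hE).1
      exact hAA _ (c4 E hE (ini n c.val) (lt_of_le_of_ne hsub hne) (Subset.refl _))
    refine ⟨{ini n c.val}, ⟨?_, ?_, ?_⟩, ?_⟩
    · intro E hE
      rw [mem_singleton] at hE
      rw [hE]
    · intro E hE E' hEE' hE'
      rw [mem_singleton] at hE ⊢
      rw [hE] at hEE'
      exact Subset.antisymm hE' hEE'
    · intro E hE E' hE'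
      rw [mem_singleton] at hE hE'
      rw [hE, hE', inter_self, card_ini hcn]
      exact htc
    · refine hle.trans ((hINC n r θ).1 _ _ ?_)
      intro K hK
      unfold fam at hK ⊢
      rw [mem_filter] at hK ⊢
      refine ⟨hK.1, ?_⟩
      rw [mem_singleton]
      rcases trace_cases c 𝒯 hG K hK.2 with h1 | h1
      · exact absurd h1 (hAA _)
      · exact hXX _ h1

end Pool.Agent.DPF.H88
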